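import Pool.Agent.helper25.PL.SpecA

/-!
# Project pl: (MP_70a088_an, THEOREM P1), block A, row APG: the basic count with a general radius.
-/

set_option autoImplicit false

open Complex Metric Set Filter Topology MeasureTheory
open Pool.Agent.helper98.ILF
open WP (it)
open HY (UD T S hd UN RM)
open PM

noncomputable section

namespace PL

theorem APG_add (f : Polynomial ℂ) (i j : ℕ) (z : ℂ) : it f (i + j) z = it f i (it f j z) := by
  unfold WP.it
  exact Function.iterate_add_apply _ _ _ _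

theorem APG_diff (f : Polynomial ℂ) (j : ℕ) : Differentiable ℂ (it f j) := by
  have h : Differentiable ℂ (fun z : ℂ => f.eval z) := f.differentiable
  exact h.iterate j

theorem APG_chain (f : Polynomial ℂ) (i j : ℕ) (z : ℂ) :
    deriv (it f (i + j)) z = deriv (it f i) (it f j z) * deriv (it f j) z := by
  have h : it f (i + j) = fun z => it f i (it f j z) := by
    funext w; exact APG_add f i j w
  rw [h]
  exact deriv_comp (h₂ := it f i) (h := it f j) z (APG_diff f i).differentiableAt (APG_diff f j).differentiableAt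

theorem APG (hPRG : PM.PRG_stmt) (hPCH : PM.PCH_stmt) (hTDF : PM.TDF_stmt) (hGEO : ED.GEO_stmt) (hCOV : HY.COV_stmt) :
    APG_stmt := by
  intro f R δ ε₀ d₀ k₀ hST r₀ hr₀ hr₁
  obtain ⟨η, hη, hη1, hR⟩ := hPRG f R δ ε₀ d₀ k₀ hST
  obtain ⟨N₂, hN₂⟩ := hCOV (η * r₀ / 4) (by positivity)
  obtain ⟨N₁, hN₁⟩ : ∃ N₁ : ℕ, 1 + 2 * Real.log 2 / η ≤ (N₁ : ℝ) := exists_nat_ge _
  refine ⟨N₂ * N₁, ?_⟩
  intro V b p m A ι hV hb hA hι hbr
  by_contra hcon
  have hlt : N₂ * 2 ^ m * N₁ < ι.card := by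
    have e : N₂ * 2 ^ m * N₁ = N₂ * N₁ * 2 ^ m := by ring
    rw [e]
    exact not_le.mp hcon
  obtain ⟨-, -, hVa⟩ := hTDF V hV
  obtain ⟨hRMb, -, -, -, -, hV1, -⟩ := hVa b hb
  have hUD : IsOpen UD := isOpen_ball
  have h0 : (0 : ℂ) ∈ UD := mem_ball_self one_pos
  have hr0c : (r₀ : ℂ) ≠ 0 := by exact_mod_cast hr₀.ne'
  have hrn : ‖(r₀ : ℂ)‖ = r₀ := by
    rw [Complex.norm_real, Real.norm_eq_abs, abs_of_pos hr₀]
  obtain ⟨ι', hsub, hcard, hclose⟩ := hN₂ m ι (fun i => cx V b (it f i p)) N₁ (fun i hi => by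
    obtain ⟨-, hiV, h1, h2, -, -⟩ := hι i hi
    have e := (hV1 _ hiV).2.2.1
    rw [e] at h1 h2
    exact ⟨h1, h2⟩) hlt
  have hgrow : ∀ i ∈ ι', ∀ k ∈ ι', i < k →
      (1 + η) * (‖deriv (it f i) p‖ / cr V (it f i p)) ≤ ‖deriv (it f k) p‖ / cr V (it f k p) := by
    intro i hi k hk hik
    obtain ⟨hiJ, hiV, -, -, hi1, hi2⟩ := hι i (hsub hi)
    obtain ⟨hkJ, hkV, -, -, hk1, hk2⟩ := hι k (hsub hk)
    obtain ⟨H, hHd, hHi, hHm, hH0, hrel⟩ := hbr i (hsub hi) k (hsub hk) hik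
    obtain ⟨-, hci, -⟩ := hVa _ hiV
    obtain ⟨hRk, hck, -, -, -, -, hk3⟩ := hVa _ hkV
    -- the chart of the branch
    obtain ⟨hUG, hGd, hGr⟩ := hPCH V H hV hHd hHi hHm b hb
    -- the chart of the target
    have hs : ∀ x ∈ UD, (r₀ : ℂ) * x ∈ UD := by
      intro x hx
      have hx' : ‖x‖ < 1 := by
        have := hx
        rwa [UD, mem_ball_zero_iff] at this
      rw [UD, mem_ball_zero_iff, norm_mul, hrn]
      nlinarith [norm_nonneg x]
    have hsd : DifferentiableOn ℂ (fun x : ℂ => (r₀ : ℂ) * x) UD := (differentiable_id.const_mul (r₀ : ℂ)).differentiableOn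
    have hH2d : DifferentiableOn ℂ (fun x => rm V (it f k p) ((r₀ : ℂ) * x)) UD := hRk.dif.comp hsd hs
    have hH2i : InjOn (fun x => rm V (it f k p) ((r₀ : ℂ) * x)) UD := by
      intro x hx y hy hxy
      have h1 : (r₀ : ℂ) * x = (r₀ : ℂ) * y := by
        have e1 := (hk3 _ (hs x hx)).2.1
        have e2 := (hk3 _ (hs y hy)).2.1
        rw [← e1, ← e2]
        exact congrArg (cx V (it f k p)) hxy
      exact mul_left_cancel₀ hr0c h1
    have hH2m : MapsTo (fun x => rm V (it f k p) ((r₀ : ℂ) * x)) UD V := fun x hx => (hk3 _ (hs x hx)).1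
    obtain ⟨hUG2, hG2d, hG2r⟩ := hPCH V (fun x => rm V (it f k p) ((r₀ : ℂ) * x)) hV hH2d hH2i hH2m b hb
    have hrm0 : rm V (it f k p) 0 = it f k p := hRk.val
    have hdr0 : DifferentiableAt ℂ (rm V (it f k p)) 0 := hRk.dif.differentiableAt (hUD.mem_nhds h0)
    have hdH2 : deriv (fun x => rm V (it f k p) ((r₀ : ℂ) * x)) 0 = (r₀ : ℂ) * deriv (rm V (it f k p)) 0 := by
      have h1 : HasDerivAt (fun x : ℂ => (r₀ : ℂ) * x) ((r₀ : ℂ) * 1) 0 := (hasDerivAt_id (0 : ℂ)).const_mul (r₀ : ℂ)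
      have h2 : HasDerivAt (rm V (it f k p)) (deriv (rm V (it f k p)) 0) ((r₀ : ℂ) * 0) := by
        rw [mul_zero]; exact hdr0.hasDerivAt
      have h3 := h2.comp (0 : ℂ) h1
      have h4 := h3.deriv
      have h5 : (rm V (it f k p) ∘ fun x : ℂ => (r₀ : ℂ) * x) = fun x => rm V (it f k p) ((r₀ : ℂ) * x) := rfl
      rw [h5] at h4
      rw [h4]; ring
    have hcrk : ‖deriv (rm V (it f k p)) 0‖ = cr V (it f k p) := rfl
    have hG2v : hd (fun x => cx V b (rm V (it f k p) ((r₀ : ℂ) * x))) 0 = r₀ := by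
      rw [hG2d]
      rw [hdH2, mul_zero, hrm0, norm_mul, hrn, hcrk]
      field_simp
    -- the derivative of the relation
    have hkk : k = (k - i) + i := by omega
    have hch : deriv (it f k) p = deriv (it f (k - i)) (it f i p) * deriv (it f i) p := by
      conv_lhs => rw [hkk]
      exact APG_chain f (k - i) i p
    have hdH : deriv (it f (k - i)) (it f i p) * deriv H 0 = (r₀ : ℂ) * deriv (rm V (it f k p)) 0 := by
      have hHat : DifferentiableAt ℂ H 0 := hHd.differentiableAt (hUD.mem_nhds h0)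
      have h1 := deriv_comp (0 : ℂ) (h₂ := it f (k - i)) (h := H) (APG_diff f (k - i)).differentiableAt hHat
      rw [hH0] at h1
      rw [← h1, ← hdH2]
      apply Filter.EventuallyEq.deriv_eq
      filter_upwards [hUD.mem_nhds h0] with x hx
      exact hrel x hx
    have hnk : 0 < ‖deriv (it f k) p‖ := by
      by_contra h
      have h1 : ‖deriv (it f k) p‖ = 0 := le_antisymm (not_lt.mp h) (norm_nonneg _)
      rw [h1, zero_div] at hk1
      linarith
    have hni : 0 < ‖deriv (it f i) p‖ := by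
      by_contra h
      have h1 : ‖deriv (it f i) p‖ = 0 := le_antisymm (not_lt.mp h) (norm_nonneg _)
      rw [h1, zero_div] at hi1
      linarith
    have hprod : ‖deriv H 0‖ * ‖deriv (it f k) p‖ = r₀ * (‖deriv (it f i) p‖ * cr V (it f k p)) := by
      have h1 : ‖deriv (it f (k - i)) (it f i p)‖ * ‖deriv H 0‖ = r₀ * cr V (it f k p) := by
        rw [← norm_mul, hdH, norm_mul, hcrk, hrn]
      rw [hch, norm_mul]
      calc ‖deriv H 0‖ * (‖deriv (it f (k - i)) (it f i p)‖ * ‖deriv (it f i) p‖)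
          = ‖deriv (it f i) p‖ * (‖deriv (it f (k - i)) (it f i p)‖ * ‖deriv H 0‖) := by ring
        _ = r₀ * (‖deriv (it f i) p‖ * cr V (it f k p)) := by rw [h1]; ring
    obtain ⟨Pi, hPi⟩ : ∃ P : ℝ, P = ‖deriv (it f i) p‖ / cr V (it f i p) := ⟨_, rfl⟩
    obtain ⟨Pk, hPk⟩ : ∃ P : ℝ, P = ‖deriv (it f k) p‖ / cr V (it f k p) := ⟨_, rfl⟩
    rw [← hPi] at hi1 hi2 ⊢
    rw [← hPk] at hk1 hk2 ⊢
    have hPkpos : 0 < Pk := by linarith
    have hGv : hd (fun x => cx V b (H x)) 0 = r₀ * Pi / Pk := by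
      rw [hGd, hH0, hPi, hPk]
      have h1 : ‖deriv H 0‖ = r₀ * (‖deriv (it f i) p‖ * cr V (it f k p)) / ‖deriv (it f k) p‖ := by
        rw [← hprod]; field_simp
      rw [h1]
      field_simp
    have h128 : r₀ / 2 ≤ hd (fun x => cx V b (H x)) 0 := by
      rw [hGv, div_le_div_iff₀ (by norm_num) hPkpos]
      nlinarith
    have h := hR V b (rm V b) hRMb (fun x => cx V b (H x)) (fun x => cx V b (rm V (it f k p) ((r₀ : ℂ) * x)))
      (fun x => x) (k - i) (by omega) hUG hUG2 differentiableOn_id (fun x hx => hx) rfl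
      (fun x hx => by
        show it f (k - i) (rm V b (cx V b (H x))) = rm V b (cx V b (rm V (it f k p) ((r₀ : ℂ) * x)))
        rw [hGr x hx, hG2r x hx]
        exact hrel x hx)
      (by
        show rm V b (cx V b (H 0)) ∈ JJ f
        rw [hGr 0 h0, hH0]; exact hiJ)
      (by
        show ‖T (cx V b (H 0)) (cx V b (rm V (it f k p) ((r₀ : ℂ) * 0)))‖ ≤ η * hd (fun x => cx V b (H x)) 0
        rw [mul_zero, hrm0, hH0]
        calc ‖T (cx V b (it f i p)) (cx V b (it f k p))‖ ≤ η * r₀ / 4 := hclose i hi k hk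
          _ ≤ η * (r₀ / 2) := by nlinarith [mul_pos hη hr₀]
          _ ≤ η * hd (fun x => cx V b (H x)) 0 := mul_le_mul_of_nonneg_left h128 hη.le)
    rw [hG2v, hGv] at h
    have e : (1 + η) * (r₀ * Pi / Pk) = r₀ * ((1 + η) * Pi / Pk) := by ring
    rw [e] at h
    have h2 : (1 + η) * Pi / Pk ≤ 1 := by
      by_contra h3
      have h3 := not_le.mp h3
      nlinarith
    rw [div_le_one hPkpos] at h2
    exact h2
  have hG := hGEO η A (2 * A) ι' (fun i => ‖deriv (it f i) p‖ / cr V (it f i p)) hη hη1 hA (by linarith)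
    (fun i hi => ⟨(hι i (hsub hi)).2.2.2.2.1, (hι i (hsub hi)).2.2.2.2.2⟩) hgrow
  have e2 : 2 * A / A = 2 := by field_simp
  rw [e2] at hG
  have h3 : (ι'.card : ℝ) ≤ N₁ := hG.trans hN₁
  have h4 : ι'.card ≤ N₁ := by exact_mod_cast h3
  omega

end PL
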