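import Pool.Agent.helper94.PL.Spec

set_option autoImplicit false

open Complex Metric Set Filter Topology MeasureTheory MPS
open Pool.Agent.helper16.Multibrot

noncomputable section

namespace PLY

theorem RAY (h1 : RA1_stmt) (h2 : RA2_stmt) : RAY_stmt := by
  intro n c E θ γ hn hc hE hR t ht
  obtain ⟨hcont, ⟨m, hm, hfx, hfe⟩, hlim⟩ := hR
  obtain ⟨T, hT, hTe⟩ := h1 n m c E θ γ hn hc hE hm hfx hfe hlim
  exact h2 n m c E θ γ T hn hc hE hm hfx hcont hfe hT hTe t ht

end PLY
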